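import Pool.Agent.MP_3ee8cb_gt.D3NB.Pt

/-! The strong fibre inequality from positivity and Gauss-Bonnet: statements. -/

namespace Pool.Agent.MP_3ee8cb_gt.CZH

open Set Filter Topology MeasureTheory D3GB D3NB
open Pool.Agent.MP_3ee8cb_gt.D3 (MF)
open scoped RealInnerProductSpace ENNReal

noncomputable section

/-- `det A'` at a point of the chart domain. -/
def yv (m : MF) (P : V → V × V) (a : V) : ℝ :=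
  trip (P a).2 (m.ver (P a) (fderiv ℝ P a (bv 0))) (m.ver (P a) (fderiv ℝ P a (bv 1)))

/-- `det A`. -/
def dl (m : MF) (P : V → V × V) (a : V) : ℝ :=
  trip (P a).2 (m.hor (P a) (fderiv ℝ P a (bv 0))) (m.hor (P a) (fderiv ℝ P a (bv 1)))

/-- `⟪J i, J' j⟫`. -/
def hj (m : MF) (P : V → V × V) (i j : Fin 3) (a : V) : ℝ :=
  ⟪m.hor (P a) (fderiv ℝ P a (bv i)), m.ver (P a) (fderiv ℝ P a (bv j))⟫

/-- The Euler form on two coordinate vectors. -/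
def ef (m : MF) (P : V → V × V) (a u v : V) : ℝ :=
  trip (P a).2 (m.ver (P a) (fderiv ℝ P a u)) (m.ver (P a) (fderiv ℝ P a v)) -
    ⟪(P a).2, aO m (P a).1 (fderiv ℝ P a u).1 (fderiv ℝ P a v).1⟫

/-- `dζ ∧ e`. -/
def eul (m : MF) (P : V → V × V) (ζ : V → ℝ) (a : V) : ℝ :=
  fderiv ℝ ζ a (bv 0) * ef m P a (bv 1) (bv 2) + fderiv ℝ ζ a (bv 1) * ef m P a (bv 2) (bv 0) +
    fderiv ℝ ζ a (bv 2) * ef m P a (bv 0) (bv 1)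

/-- The cut-off on the entry side. -/
def zt (P : V → V × V) (χ : V → ℝ) (a : V) : ℝ := if a 2 ≤ 0 then χ (P a).1 else 1

/-- The divergence of the weighted curvature field. -/
def dw (m : MF) (P : V → V × V) (χ : V → ℝ) (a : V) : ℝ :=
  dv (fun x => (P x).1) (fun x => χ (P x).1 • XX m (P x).1 (P x).2) a

/-- A good point. -/
structure Gp (m : MF) (P : V → V × V) (a : V) : Prop where
  dif : DifferentiableAt ℝ P a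
  l0 : ⟪(P a).2, m.hor (P a) (fderiv ℝ P a (bv 0))⟫ = 0
  l1 : ⟪(P a).2, m.hor (P a) (fderiv ℝ P a (bv 1))⟫ = 0
  sym : hj m P 0 1 a = hj m P 1 0 a
  pos : 0 < yv m P a

/-- The moving front in charts; time is the last coordinate; `R` is the set of minima and merging
saddles. -/
structure Sh (m : MF) (lg : V × V → V) (Om Om0 R : Set V) (P : V → V × V) (o : V) (D L c : ℝ) :
    Prop where
  op : IsOpen Om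
  sub : Om0 ⊆ Om
  meas : MeasurableSet Om0
  inv0 : ∀ a ∈ Om0, ∀ s : ℝ, a + s • bv 2 ∈ Om0
  flow : ∀ a ∈ Om, ‖(P a).2‖ = 1 ∧ ∀ s : ℝ, P (a + s • bv 2) = m.Z s (P a)
  near : ∀ a ∈ Om0, a 2 = 0 → ‖lg ((P a).1, o)‖ ≤ D
  bd : ∀ a ∈ Om0, a 2 = 0 → ∀ i, ‖m.hor (P a) (fderiv ℝ P a (bv i))‖ ≤ L
  fin : volume (Om0 ∩ {a | a 2 ∈ Icc (0 : ℝ) 1}) ≠ ∞
  good : ∀ᵐ a : V, a ∈ Om0 → Gp m P a
  mR : MeasurableSet R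
  sR : R ⊆ Om0
  down : ∀ᵐ a : V, a ∈ Om0 → ∃ I : Set ℝ, IsLowerSet I ∧ ∀ᵐ t : ℝ, a + t • bv 2 ∈ R ↔ t ∈ I
  typ : ∀ᵐ a : V, a ∈ Om0 → 0 < dl m P a → (a ∈ R ↔ hj m P 0 0 a < 0)
  pos : ∀ χ : V → ℝ, ContDiff ℝ 1 χ → (∀ z, 0 ≤ χ z) → HasCompactSupport χ →
    IntegrableOn (dw m P χ) R ∧ ∫ a in R, dw m P χ a ≤ 0
  gb : ∀ χ : V → ℝ, ContDiff ℝ 1 χ → HasCompactSupport χ →
    (∀ z, ‖lg (z, o)‖ ≤ D + 1 → χ z = 1) →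
    IntegrableOn (eul m P (zt P χ)) Om0 ∧ ∫ a in Om0, eul m P (zt P χ) a ≤ c

/-- The strong fibre inequality. -/
def SFIBS : Prop := ∀ (m : MF) (lg : V × V → V) (Om Om0 R : Set V) (P : V → V × V) (o : V)
  (D L c lo hi : ℝ), m.OK → m.Jac → ContDiff ℝ 2 m.om → m.Had lg → 0 < lo → m.Up lo → m.Dn hi →
  Sh m lg Om Om0 R P o D L c → ∀ g : V → ℝ≥0∞,
  (∀ᵐ a : V, a ∈ Om0 → g a ≠ 0 → ∃ τ : ℝ, (∀ᵐ t : ℝ, a + t • bv 2 ∈ R ↔ t < τ) ∧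
    g a ≤ ENNReal.ofReal (yv m P (a + τ • bv 2))) →
  ∫⁻ a in Om0 ∩ {a | a 2 ∈ Icc (0 : ℝ) 1}, g a ≤ ENNReal.ofReal c

/-- Radial cut-off functions. -/
structure Cut (m : MF) (lg : V × V → V) (o : V) (k r : ℝ) (χ : V → ℝ) : Prop where
  c1 : ContDiff ℝ 1 χ
  nn : ∀ z, 0 ≤ χ z
  cs : HasCompactSupport χ
  one : ∀ z, ‖lg (z, o)‖ ≤ r → χ z = 1
  zero : ∀ z, r + 1 ≤ ‖lg (z, o)‖ → χ z = 0
  der : ∀ z, ∃ s : ℝ, 0 ≤ s ∧ s * ‖lg (z, o)‖ ≤ k ∧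
    (s ≠ 0 → r ≤ ‖lg (z, o)‖ ∧ ‖lg (z, o)‖ ≤ r + 1) ∧
    ∀ u, fderiv ℝ χ z u = s * ⟪lg (z, o), m.S z u⟫

def SCHI : Prop := ∀ (m : MF) (lg : V × V → V) (o : V), m.OK → m.Jac → m.Had lg →
  ∃ k : ℝ, ∀ r : ℝ, 0 < r → ∃ χ, Cut m lg o k r χ

/-- A Jacobi field that grows towards time zero is small. -/
def SDEC : Prop := ∀ (m : MF) (lo : ℝ) (z ξ : V × V) (t : ℝ), m.OK → m.Jac → 0 < lo → m.Up lo →
  ‖z.2‖ = 1 → ⟪z.2, m.hor z ξ⟫ = 0 → ⟪m.ver z ξ, z.2⟫ = 0 → 0 ≤ t * ⟪m.hor z ξ, m.ver z ξ⟫ →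
    (1 + lo * t ^ 2) * ‖m.hor z ξ‖ ^ 2 ≤ ‖m.J z ξ t‖ ^ 2

/-- The Einstein form: signs and bounds near the radial direction. -/
def SEIN : Prop := ∀ (m : MF) (lo hi : ℝ) (y w n : V), m.OK → m.Jac → 0 < lo → m.Up lo → m.Dn hi →
  ‖w‖ = 1 → |⟪n, m.S y (XX m y w)⟫ / (m.S y).det| ≤ hi * ‖n‖ ∧
    ∀ s : ℝ, hi * ‖n - s • w‖ ≤ lo * |s| → 0 ≤ s * (⟪n, m.S y (XX m y w)⟫ / (m.S y).det)

end

end Pool.Agent.MP_3ee8cb_gt.CZH
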