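import Pool.Agent.MP_3ee8cb_gt.D3GB.Spec

/-! Integration along vertical lines over a slab of height one. -/

namespace Pool.Agent.MP_3ee8cb_gt.CZH

open Set Filter Topology MeasureTheory D3GB
open scoped ENNReal

theorem bv22 : (bv 2 : V) 2 = 1 := by simp [bv]

theorem add2 (a : V) (t : ℝ) : (a + t • bv 2 : V) 2 = a 2 + t := by simp [bv]

theorem shear : MeasurePreserving (fun p : ℝ × V => (p.1, p.2 + p.1 • bv 2))
    ((volume : Measure ℝ).prod (volume : Measure V)) (volume.prod volume) :=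
  MeasurePreserving.skew_product (f := fun t : ℝ => t) (g := fun (t : ℝ) (a : V) => a + t • bv 2)
    (MeasurePreserving.id _) (by fun_prop)
    (Eventually.of_forall fun t => (measurePreserving_add_right volume (t • bv 2)).map_eq)

/-- An almost everywhere property holds almost everywhere on almost every vertical line. -/
theorem ae_line {Q : V → Prop} (h : ∀ᵐ a : V, Q a) : ∀ᵐ a : V, ∀ᵐ t : ℝ, Q (a + t • bv 2) := by
  have h1 : ∀ᵐ p : ℝ × V ∂(volume.prod volume), Q p.2 :=
    Measure.quasiMeasurePreserving_snd.ae h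
  have h2 := shear.quasiMeasurePreserving.ae h1
  exact Measure.ae_ae_of_ae_prod (Measure.measurePreserving_swap.quasiMeasurePreserving.ae h2)

theorem slab_m : MeasurableSet {a : V | a 2 ∈ Icc (0 : ℝ) 1} :=
  measurableSet_Icc.preimage (by fun_prop)

theorem slab {H : V → ℝ} (h : Integrable H) :
    Integrable (fun p : V × ℝ => H (p.1 + p.2 • bv 2))
      ((volume.restrict {a : V | a 2 ∈ Icc (0 : ℝ) 1}).prod volume) ∧
    ∫ a in {a : V | a 2 ∈ Icc (0 : ℝ) 1}, ∫ t : ℝ, H (a + t • bv 2) = ∫ a, H a := by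
  set W : Set (ℝ × V) := {p | p.2 2 - p.1 ∈ Icc (0 : ℝ) 1} with hW
  have mW : MeasurableSet W := measurableSet_Icc.preimage (by fun_prop)
  set G : ℝ × V → ℝ := W.indicator fun p => H p.2 with hG
  have e : ∀ (b : V) (t : ℝ), G (t, b) = (Icc (b 2 - 1) (b 2)).indicator (fun _ => H b) t := by
    intro b t
    by_cases ht : t ∈ Icc (b 2 - 1) (b 2)
    · rw [indicator_of_mem ht, hG, indicator_of_mem]
      exact ⟨by linarith [ht.2], by linarith [ht.1]⟩
    · rw [indicator_of_notMem ht, hG, indicator_of_notMem]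
      exact fun h => ht ⟨by linarith [h.2], by linarith [h.1]⟩
  have v : ∀ x : ℝ, (volume : Measure ℝ).real (Icc (x - 1) x) = 1 := fun x => by
    simp [Measure.real]
  have mG : AEStronglyMeasurable G (volume.prod volume) :=
    (h.1.comp_snd (μ := (volume : Measure ℝ))).indicator mW
  have iG : Integrable G (volume.prod volume) := by
    refine (integrable_prod_iff' mG).2 ⟨Eventually.of_forall fun b => ?_, ?_⟩
    · simp only [e]
      exact (integrable_indicator_iff measurableSet_Icc).2 (integrableOn_const (by simp))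
    · refine h.norm.congr (Eventually.of_forall fun b => ?_)
      simp only [e, norm_indicator_eq_indicator_norm]
      rw [integral_indicator_const _ measurableSet_Icc, v, one_smul]
  have sG : ∫ p, G p ∂(volume.prod volume) = ∫ a, H a := by
    rw [integral_prod_symm _ iG]
    refine integral_congr_ae (Eventually.of_forall fun b => ?_)
    simp only [e]
    rw [integral_indicator_const _ measurableSet_Icc, v, one_smul]
  have mp := shear.comp (Measure.measurePreserving_swap (μ := (volume : Measure V))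
    (ν := (volume : Measure ℝ)))
  have i2 := (mp.integrable_comp mG).2 iG
  have e2 : (G ∘ (fun p : ℝ × V => (p.1, p.2 + p.1 • bv 2)) ∘ Prod.swap) =
      ({a : V | a 2 ∈ Icc (0 : ℝ) 1} ×ˢ (univ : Set ℝ)).indicator
        fun p : V × ℝ => H (p.1 + p.2 • bv 2) := by
    funext p
    have q : (p.2, p.1 + p.2 • bv 2) ∈ W ↔
        p ∈ {a : V | a 2 ∈ Icc (0 : ℝ) 1} ×ˢ (univ : Set ℝ) := by
      show (p.1 + p.2 • bv 2 : V) 2 - p.2 ∈ Icc (0 : ℝ) 1 ↔ p.1 2 ∈ Icc (0 : ℝ) 1 ∧ True
      rw [add2, add_sub_cancel_right, and_true]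
    show W.indicator (fun p => H p.2) (p.2, p.1 + p.2 • bv 2) = _
    by_cases hp : (p.2, p.1 + p.2 • bv 2) ∈ W
    · rw [indicator_of_mem hp, indicator_of_mem (q.1 hp)]
    · rw [indicator_of_notMem hp, indicator_of_notMem fun h => hp (q.2 h)]
  have mS : MeasurableSet ({a : V | a 2 ∈ Icc (0 : ℝ) 1} ×ˢ (univ : Set ℝ)) :=
    slab_m.prod MeasurableSet.univ
  have r : (volume.restrict {a : V | a 2 ∈ Icc (0 : ℝ) 1}).prod (volume : Measure ℝ) =
      (volume.prod volume).restrict ({a : V | a 2 ∈ Icc (0 : ℝ) 1} ×ˢ (univ : Set ℝ)) := by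
    rw [← Measure.prod_restrict, Measure.restrict_univ]
  have i3 : Integrable (fun p : V × ℝ => H (p.1 + p.2 • bv 2))
      ((volume.restrict {a : V | a 2 ∈ Icc (0 : ℝ) 1}).prod volume) := by
    rw [r]
    rw [e2] at i2
    exact (integrable_indicator_iff mS).1 i2
  refine ⟨i3, ?_⟩
  rw [← integral_prod _ i3, r, ← integral_indicator mS, ← e2, ← sG]
  have := integral_map (μ := (volume : Measure V).prod (volume : Measure ℝ))
    mp.measurable.aemeasurable (f := G) (by rw [mp.map_eq]; exact mG)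
  rw [mp.map_eq] at this
  exact this.symm

/-- Fatou along vertical lines. -/
theorem fatou {H : ℕ → V → ℝ} {S : Set V} {c : ℝ} {ε : ℕ → ℝ} {g : V → ℝ≥0∞}
    (hS : MeasurableSet S) (inv : ∀ a (s : ℝ), a + s • bv 2 ∈ S → a ∈ S)
    (hi : ∀ n, Integrable (H n)) (h0 : ∀ n a, a ∉ S → H n a = 0)
    (hc : ∀ n, ∫ a, H n a ≤ c + ε n) (hε : Tendsto ε atTop (𝓝 0))
    (hp : ∀ᵐ a : V, a ∈ S → a 2 ∈ Icc (0 : ℝ) 1 →
      (∀ n, Integrable fun t : ℝ => H n (a + t • bv 2)) →
      (∀ n, 0 ≤ ∫ t : ℝ, H n (a + t • bv 2)) ∧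
        ∀ᶠ n in atTop, g a ≤ ENNReal.ofReal (∫ t : ℝ, H n (a + t • bv 2))) :
    ∫⁻ a in S ∩ {a | a 2 ∈ Icc (0 : ℝ) 1}, g a ≤ ENNReal.ofReal c := by
  set T : Set V := {a | a 2 ∈ Icc (0 : ℝ) 1} with hT
  set u : ℕ → V → ℝ := fun n a => ∫ t : ℝ, H n (a + t • bv 2) with hu
  have iu : ∀ n, Integrable (u n) (volume.restrict T) := fun n => (slab (hi n)).1.integral_prod_left
  have il : ∀ᵐ a ∂(volume.restrict T), ∀ n, Integrable fun t : ℝ => H n (a + t • bv 2) :=
    ae_all_iff.2 fun n => (slab (hi n)).1.prod_right_ae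
  have k : ∀ᵐ a ∂(volume.restrict T), (∀ n, 0 ≤ u n a) ∧
      S.indicator g a ≤ liminf (fun n => ENNReal.ofReal (u n a)) atTop := by
    filter_upwards [il, ae_restrict_of_ae hp, ae_restrict_mem slab_m] with a h1 h2 h3
    by_cases ha : a ∈ S
    · refine ⟨(h2 ha h3 h1).1, ?_⟩
      rw [indicator_of_mem ha]
      exact le_liminf_of_le (h := (h2 ha h3 h1).2)
    · refine ⟨fun n => integral_nonneg fun t => (h0 n _ fun h => ha (inv a t h)).ge, ?_⟩
      rw [indicator_of_notMem ha]
      exact zero_le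
  have l : Tendsto (fun n => ENNReal.ofReal (c + ε n)) atTop (𝓝 (ENNReal.ofReal c)) := by
    have := ENNReal.tendsto_ofReal (hε.const_add c)
    rwa [add_zero] at this
  calc ∫⁻ a in S ∩ T, g a = ∫⁻ a in T, S.indicator g a := by
        rw [lintegral_indicator hS, Measure.restrict_restrict hS]
    _ ≤ ∫⁻ a in T, liminf (fun n => ENNReal.ofReal (u n a)) atTop :=
        lintegral_mono_ae (k.mono fun a h => h.2)
    _ ≤ liminf (fun n => ∫⁻ a in T, ENNReal.ofReal (u n a)) atTop :=
        lintegral_liminf_le' fun n => (iu n).1.aemeasurable.ennreal_ofReal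
    _ ≤ liminf (fun n => ENNReal.ofReal (c + ε n)) atTop := by
        refine liminf_le_liminf (Eventually.of_forall fun n => ?_)
        rw [← ofReal_integral_eq_lintegral_ofReal (iu n) (k.mono fun a h => h.1 n)]
        exact ENNReal.ofReal_le_ofReal (((slab (hi n)).2).le.trans (hc n))
    _ = ENNReal.ofReal c := l.liminf_eq

end Pool.Agent.MP_3ee8cb_gt.CZH
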