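import Pool.Agent.MP_3ee8cb_gt.CZH.Ray
import Pool.Agent.MP_3ee8cb_gt.CZH.Slab

/-! The strong fibre inequality. -/

namespace Pool.Agent.MP_3ee8cb_gt.CZH

open Set Filter Topology MeasureTheory D3GB D3NB
open scoped ENNReal

theorem sFIBS : SFIBS := by
  intro m lg Om Om0 R P o D L c lo hi hm hj' h2 hl lo0 up dn S g hg
  have ha : 0 < √lo := Real.sqrt_pos.2 lo0
  have up' : m.Up (√lo ^ 2) := by rwa [Real.sq_sqrt lo0.le]
  generalize √lo = a at ha up'
  obtain ⟨k, ρ₀, k0, hχ⟩ := exists_shell hm hj' hl ha up' dn o D L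
  obtain ⟨ρ, hρ⟩ : ∃ ρ : ℕ → ℝ, ∀ n, ρ n = max ρ₀ (D + 2) + n := ⟨_, fun _ => rfl⟩
  have n0 : ∀ n : ℕ, (0 : ℝ) ≤ n := fun n => n.cast_nonneg
  choose χ X using fun n => hχ (ρ n) (by linarith [hρ n, le_max_left ρ₀ (D + 2), n0 n])
  have tρ : Tendsto ρ atTop atTop := by
    rw [funext hρ]
    exact tendsto_atTop_add_const_left _ _ tendsto_natCast_atTop_atTop
  obtain ⟨e, he⟩ : ∃ e : ℕ → ℝ, ∀ n, e n = 2 * k * Real.exp (a * (D - ρ n)) / a :=
    ⟨_, fun _ => rfl⟩
  have te : Tendsto e atTop (𝓝 0) := by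
    have h1 : Tendsto (fun n => a * (D - ρ n)) atTop atBot :=
      (tendsto_atBot_add_const_left _ D (tendsto_neg_atTop_atBot.comp tρ)).const_mul_atBot ha
    have h3 := ((Real.tendsto_exp_atBot.comp h1).const_mul (2 * k)).div_const a
    rw [mul_zero, zero_div] at h3
    rw [funext he]
    exact h3
  have p1 := fun n => S.pos (χ n) (X n).c1 (X n).nn (X n).cs
  have p2 := fun n => S.gb (χ n) (X n).c1 (X n).cs fun z hz => ((X n).one z (by
    rw [D3WI.lg_symm hj' hl]
    linarith [hρ n, le_max_right ρ₀ (D + 2), n0 n])).self_of_nhds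
  have mT := S.meas.inter slab_m
  have i1 := fun n => (p1 n).1.integrable_indicator S.mR
  have i2 := fun n => (p2 n).1.integrable_indicator S.meas
  have i3 : ∀ n, Integrable ((Om0 ∩ {a : V | a 2 ∈ Icc (0 : ℝ) 1}).indicator fun _ => e n) :=
    fun n => IntegrableOn.integrable_indicator (integrableOn_const S.fin) mT
  refine fatou (H := fun n b => R.indicator (dw m P (χ n)) b +
      Om0.indicator (eul m P (zt P (χ n))) b +
      (Om0 ∩ {a : V | a 2 ∈ Icc (0 : ℝ) 1}).indicator (fun _ => e n) b)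
    (ε := fun n => volume.real (Om0 ∩ {a : V | a 2 ∈ Icc (0 : ℝ) 1}) * e n) S.meas
    (fun b s h => by simpa using S.inv0 _ h (-s)) (fun n => ((i1 n).add (i2 n)).add (i3 n))
    (fun n b hb => by
      rw [indicator_of_notMem fun h => hb (S.sR h), indicator_of_notMem hb,
        indicator_of_notMem fun h => hb h.1, add_zero, add_zero]) (fun n => ?_)
    (by simpa using te.const_mul _) ?_
  · rw [integral_add (f := fun b => R.indicator (dw m P (χ n)) b +
      Om0.indicator (eul m P (zt P (χ n))) b) ((i1 n).add (i2 n)) (i3 n),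
      integral_add (i1 n) (i2 n), integral_indicator S.mR, integral_indicator S.meas, integral_indicator mT,
      setIntegral_const, smul_eq_mul]
    linarith [(p1 n).2, (p2 n).2]
  filter_upwards [S.good, S.down, ae_line S.good, ae_line S.typ, hg] with u g1 g2 g3 g4 g5 hu _ ih
  obtain ⟨I, hI, hR⟩ := g2 hu
  have e1 : ∀ n (t : ℝ), (Om0 ∩ {a : V | a 2 ∈ Icc (0 : ℝ) 1}).indicator (fun _ => e n)
      (u + t • bv 2) = (Icc (-u 2) (1 - u 2)).indicator (fun _ => e n) t := fun n t => by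
    have : u + t • bv 2 ∈ Om0 ∩ {a : V | a 2 ∈ Icc (0 : ℝ) 1} ↔ t ∈ Icc (-u 2) (1 - u 2) := by
      simp only [mem_inter_iff, S.inv0 u hu t, true_and, mem_ofPred_eq, add2, mem_Icc]
      exact ⟨fun h => ⟨by linarith [h.1], by linarith [h.2]⟩,
        fun h => ⟨by linarith [h.1], by linarith [h.2]⟩⟩
    by_cases h : t ∈ Icc (-u 2) (1 - u 2)
    · rw [indicator_of_mem h, indicator_of_mem (this.2 h)]
    · rw [indicator_of_notMem h, indicator_of_notMem fun h' => h (this.1 h')]
  simp only [e1, indicator_of_mem (S.inv0 u hu _)] at ih ⊢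
  have j3 : ∀ n, Integrable ((Icc (-u 2) (1 - u 2)).indicator fun _ : ℝ => e n) := fun n =>
    IntegrableOn.integrable_indicator (integrableOn_const measure_Icc_lt_top.ne) measurableSet_Icc
  have j0 : ∀ n, Integrable fun t : ℝ => R.indicator (dw m P (χ n)) (u + t • bv 2) +
      eul m P (zt P (χ n)) (u + t • bv 2) := fun n =>
    ((ih n).sub (j3 n)).congr (Eventually.of_forall fun t => by simp)
  have r := fun n => ray hm hj' h2 hl ha S (X n) k0 hu (g1 hu)
    ((g3.and g4).mono fun t h => ⟨h.1 (S.inv0 u hu t), h.2 (S.inv0 u hu t)⟩) hI hR (j0 n)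
  have e2 : ∀ n, ∫ t, (Icc (-u 2) (1 - u 2)).indicator (fun _ : ℝ => e n) t = e n := fun n => by
    rw [integral_indicator measurableSet_Icc, setIntegral_const, Real.volume_real_Icc_of_le
      (by linarith)]
    simp
  simp only [fun n => integral_add (j0 n) (j3 n), e2]
  simp only [← he] at r
  refine ⟨fun n => by linarith [(r n).1], ?_⟩
  by_cases h0 : g u = 0
  · exact Eventually.of_forall fun n => h0.trans_le zero_le
  obtain ⟨τ, t1, t2⟩ := g5 hu h0
  filter_upwards [tρ.eventually_gt_atTop ‖lg (o, (P (u + τ • bv 2)).1)‖] with n hn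
  have := (r n).2 τ t1
  rw [((X n).one _ hn).self_of_nhds, one_mul] at this
  exact t2.trans (ENNReal.ofReal_le_ofReal (by linarith))

end Pool.Agent.MP_3ee8cb_gt.CZH
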