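import Pool.Agent.MP_3ee8cb_gt.CZH.Spec

/-! Radial cut-off functions. -/

namespace Pool.Agent.MP_3ee8cb_gt.CZH

open Set Filter Topology Real
open Pool.Agent.MP_3ee8cb_gt.D3 (MF V)
open scoped RealInnerProductSpace

theorem st_out {x : ℝ} (h : x < 0 ∨ 1 < x) : deriv smoothTransition x = 0 := by
  rcases h with h | h
  · have : smoothTransition =ᶠ[𝓝 x] fun _ => 0 :=
      mem_of_superset (Iio_mem_nhds h) fun y hy => smoothTransition.zero_of_nonpos (le_of_lt hy)
    rw [this.deriv_eq, deriv_const]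
  · have : smoothTransition =ᶠ[𝓝 x] fun _ => 1 :=
      mem_of_superset (Ioi_mem_nhds h) fun y hy => smoothTransition.one_of_one_le (le_of_lt hy)
    rw [this.deriv_eq, deriv_const]

theorem rCHI : SCHI := by
  intro m lg o ho hj hl
  have c1 : ContDiff ℝ 1 smoothTransition := smoothTransition.contDiff
  obtain ⟨M, hM⟩ := (isCompact_Icc (a := (0 : ℝ)) (b := 1)).exists_bound_of_continuousOn
    (c1.continuous_deriv le_rfl).continuousOn
  have M0 : 0 ≤ M := (norm_nonneg _).trans (hM 0 (by simp))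
  refine ⟨2 * M, fun r hr => ?_⟩
  have cN : ContDiff ℝ 1 fun q : V × V => ‖lg q‖ ^ 2 / 2 := (hl.c1.norm_sq ℝ).div_const 2
  have d0 : 0 < r + 1 / 2 := by positivity
  set x : V → ℝ := fun z => ((r + 1) ^ 2 / 2 - ‖lg (z, o)‖ ^ 2 / 2) / (r + 1 / 2) with hx
  have cx : ContDiff ℝ 1 x :=
    (contDiff_const.sub (cN.comp (contDiff_id.prodMk contDiff_const))).div_const _
  have x1 : ∀ z, 1 ≤ x z ↔ ‖lg (z, o)‖ ≤ r := fun z => by
    rw [hx, one_le_div d0, ← sq_le_sq₀ (norm_nonneg _) hr.le]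
    constructor <;> intro h <;> nlinarith
  have x0 : ∀ z, x z ≤ 0 ↔ r + 1 ≤ ‖lg (z, o)‖ := fun z => by
    rw [hx, div_le_iff₀ d0, ← sq_le_sq₀ (by positivity) (norm_nonneg _)]
    constructor <;> intro h <;> nlinarith
  have x1' : ∀ z, x z ≤ 1 → r ≤ ‖lg (z, o)‖ := fun z h => by
    rw [hx, div_le_one d0] at h
    rw [← sq_le_sq₀ hr.le (norm_nonneg _)]
    nlinarith
  have x0' : ∀ z, 0 ≤ x z → ‖lg (z, o)‖ ≤ r + 1 := fun z h => by
    rw [hx, le_div_iff₀ d0] at h
    rw [← sq_le_sq₀ (norm_nonneg _) (by positivity)]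
    nlinarith
  refine ⟨fun z => smoothTransition (x z), c1.comp cx, fun z => smoothTransition.nonneg _, ?_,
    fun z h => smoothTransition.one_of_one_le ((x1 z).2 h),
    fun z h => smoothTransition.zero_of_nonpos ((x0 z).2 h), fun z => ?_⟩
  · have cK : IsCompact ((fun b : V => (m.Z 1 (o, b)).1) '' Metric.closedBall 0 (r + 1)) :=
      (isCompact_closedBall _ _).image
        (((D3WI.Z_c1 ho 1).continuous.comp (continuous_const.prodMk continuous_id)).fst)
    refine HasCompactSupport.intro cK fun z hz => smoothTransition.zero_of_nonpos ((x0 z).2 ?_)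
    by_contra hn
    refine hz ⟨lg (o, z), ?_, hl.ex o z⟩
    rw [mem_closedBall_zero_iff, D3WI.lg_symm hj hl]
    exact (not_le.1 hn).le
  · have dN : HasFDerivAt (fun z : V => ‖lg (z, o)‖ ^ 2 / 2)
        ((fderiv ℝ (fun q : V × V => ‖lg q‖ ^ 2 / 2) (z, o)).comp (.inl ℝ V V)) z :=
      ((cN.differentiable one_ne_zero _).hasFDerivAt).comp z (hasFDerivAt_prodMk_left z o)
    have dx := (dN.const_sub ((r + 1) ^ 2 / 2)).mul_const (r + 1 / 2)⁻¹
    have dχ := ((c1.differentiable one_ne_zero (x z)).hasDerivAt).comp_hasFDerivAt z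
      (f := x) dx
    have s0 : 0 ≤ deriv smoothTransition (x z) := smoothTransition.monotone.deriv_nonneg
    have hin : deriv smoothTransition (x z) ≠ 0 → 0 ≤ x z ∧ x z ≤ 1 := fun h =>
      ⟨not_lt.1 fun e => h (st_out (Or.inl e)), not_lt.1 fun e => h (st_out (Or.inr e))⟩
    refine ⟨deriv smoothTransition (x z) / (r + 1 / 2), div_nonneg s0 d0.le, ?_, fun h => ?_,
      fun u => ?_⟩
    · by_cases h : deriv smoothTransition (x z) = 0
      · rw [h, zero_div, zero_mul]
        positivity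
      · have h1 := (le_abs_self _).trans (hM _ (hin h))
        have h2 := x0' z (hin h).1
        rw [div_mul_eq_mul_div, div_le_iff₀ d0]
        nlinarith [mul_le_mul h1 h2 (norm_nonneg _) M0]
    · have h' := hin fun e => h (by rw [e, zero_div])
      exact ⟨x1' z h'.2, x0' z h'.1⟩
    · have e := congrArg (fun L : V →L[ℝ] ℝ => L u) dχ.fderiv
      refine Eq.trans e ?_
      simp only [smul_apply, neg_apply, ContinuousLinearMap.comp_apply,
        ContinuousLinearMap.inl_apply, hl.grad, map_zero, inner_zero_right, smul_eq_mul]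
      ring

end Pool.Agent.MP_3ee8cb_gt.CZH
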