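import Pool.Agent.MP_3ee8cb_gt.CZ.Spec
import Pool.Agent.MP_3ee8cb_gt.CZP.Brg

/-! Uniform bounds on a front, and Gauss-Bonnet for the cut-off on the entry side. -/

namespace Pool.Agent.MP_3ee8cb_gt.CZH

open Set Filter Topology MeasureTheory D3 CZ
open D3GB (bv)
open D3NB (Ph)
open D3MO (S2)

theorem sph1 : ENNReal.ofReal (sph fun _ => 1) = (volume : Measure V).toSphere univ := by
  rw [sph, integral_const, smul_eq_mul, mul_one, Measure.real,
    ENNReal.ofReal_toReal (measure_ne_top _ _)]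

/-- The derivative of a locally Lipschitz map is bounded on compact sets. -/
theorem fd_bd {F : Type} [NormedAddCommGroup F] [NormedSpace ℝ F] {f : V → F} {O Q : Set V}
    (hO : IsOpen O) (hf : LocallyLipschitzOn O f) (hQ : IsCompact Q) (s : Q ⊆ O) :
    ∃ L : ℝ, ∀ x ∈ Q, ‖fderiv ℝ f x‖ ≤ L := by
  refine hQ.induction_on (p := fun A => ∃ L : ℝ, ∀ x ∈ A, ‖fderiv ℝ f x‖ ≤ L) ⟨0, by simp⟩
    (fun A B h ⟨L, hL⟩ => ⟨L, fun x hx => hL x (h hx)⟩)
    (fun A B ⟨L, hL⟩ ⟨M, hM⟩ => ⟨max L M, fun x hx => hx.elim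
      (fun h => (hL x h).trans (le_max_left _ _)) fun h => (hM x h).trans (le_max_right _ _)⟩)
    fun x hx => ?_
  obtain ⟨L, t, ht, l⟩ := hf (s hx)
  rw [hO.nhdsWithin_eq (s hx)] at ht
  exact ⟨interior t, mem_nhdsWithin_of_mem_nhds (interior_mem_nhds.2 ht), L, fun y hy =>
    norm_fderiv_le_of_lipschitzOn ℝ (mem_interior_iff_mem_nhds.1 hy) l⟩

variable {m : MF} {lg : V × V → V} {σ : V → V × V} {a hi : ℝ} {b : V × V → V → ℝ}
  {T : V → S2 → S2} {G : V → S2 → V} {K : V → V} {Om Om0 : Set V}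

theorem fld (h : Dat m lg σ a hi b T G K Om Om0) : ∃ D L : ℝ,
    (∀ u ∈ Om0, u 2 = 0 → ‖lg ((PK m σ K u).1, 0)‖ ≤ D) ∧
    (∀ u ∈ Om0, u 2 = 0 → ∀ i, ‖m.hor (PK m σ K u) (fderiv ℝ (PK m σ K) u (bv i))‖ ≤ L) ∧
    volume (Om0 ∩ {u | u 2 ∈ Icc (0 : ℝ) 1}) ≠ ⊤ := by
  obtain ⟨Q, hQ, s, q⟩ := h.atl.cpt 1
  have c : ContinuousOn (fun u => (PK m σ K u).1) Q := (h.geo.lip.continuousOn.mono s).fst
  obtain ⟨D, hD⟩ := hQ.exists_bound_of_continuousOn
    (h.had.c1.continuous.comp_continuousOn (c.prodMk (continuousOn_const (c := (0 : V)))))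
  obtain ⟨M, hM⟩ := hQ.exists_bound_of_continuousOn (h.ok.cS.continuous.comp_continuousOn c)
  obtain ⟨L, hL⟩ := fd_bd h.atl.op h.geo.lip hQ s
  refine ⟨D, M * L, fun u hu e => hD u (q u hu (by simp [e])), fun u hu e i => ?_,
    ((measure_mono fun u hu => q u hu.1 (abs_le.2 ⟨by linarith [hu.2.1], hu.2.2⟩)).trans_lt
      hQ.measure_lt_top).ne⟩
  have hq := q u hu (by simp [e])
  have n : ‖bv i‖ = 1 := by simp [bv]
  have l := (fderiv ℝ (PK m σ K) u).le_opNorm (bv i)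
  rw [n, mul_one] at l
  exact ((m.S _).le_opNorm _).trans (mul_le_mul (hM u hq)
    ((norm_fst_le _).trans (l.trans (hL u hq))) (norm_nonneg _) ((norm_nonneg _).trans (hM u hq)))

/-- The distance from the base point along a ray. -/
theorem rad (h : Dat m lg σ a hi b T G K Om Om0) (hp : SPT) {o : V} {D : ℝ}
    (near : ∀ u ∈ Om0, u 2 = 0 → ‖lg ((PK m σ K u).1, o)‖ ≤ D) {q : V} (hq : q ≠ 0) :
    ‖lg ((Ph m σ q).1, o)‖ ≤ |Real.log ‖q‖| + D ∧ |Real.log ‖q‖| - D ≤ ‖lg ((Ph m σ q).1, o)‖ := by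
  obtain ⟨u, hu, rfl⟩ := h.atl.bij.surjOn hq
  have h0 := h.atl.cyl0 u hu (-u 2)
  obtain ⟨⟨n, f⟩, -⟩ := hp _ _ _ _ _ _ _ _ _ _ _ h _ (h.atl.sub h0)
  have d := near _ h0 (by simp [bv])
  have e := f (u 2)
  rw [add_assoc, ← add_smul, neg_add_cancel, zero_smul, add_zero] at e
  rw [h.atl.nrm u (h.atl.sub hu), Real.log_exp]
  change ‖lg ((PK m σ K u).1, o)‖ ≤ _ ∧ _ ≤ ‖lg ((PK m σ K u).1, o)‖
  rw [e]
  generalize PK m σ K (u + (-u 2) • bv 2) = z at n d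
  have g := congrArg norm (D3WI.lg_geo h.ok h.jac h.had z (u 2) 0)
  rw [h.ok.zero, zero_sub, norm_smul, h.jac.norm, n, mul_one, norm_neg, Real.norm_eq_abs] at g
  have t1 := h.had.tri (m.Z (u 2) z).1 z.1 o
  have t2 := h.had.tri (m.Z (u 2) z).1 o z.1
  have sy := D3WI.lg_symm h.jac h.had o z.1
  exact ⟨by linarith, by linarith⟩

theorem fgb (h : Dat m lg σ a hi b T G K Om Om0) (hp : SPT) (hg : CZ.SGB) {o : V} {D : ℝ}
    (near : ∀ u ∈ Om0, u 2 = 0 → ‖lg ((PK m σ K u).1, o)‖ ≤ D) (χ : V → ℝ) (c1 : ContDiff ℝ 1 χ)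
    (cs : HasCompactSupport χ) (one : ∀ z, ‖lg (z, o)‖ ≤ D + 1 → χ z = 1) :
    IntegrableOn (eul m (PK m σ K) (zt (PK m σ K) χ)) Om0 ∧
      ∫ u in Om0, eul m (PK m σ K) (zt (PK m σ K) χ) u ≤ sph fun _ => 1 := by
  set ζ : V → ℝ := fun q => if Real.log ‖q‖ ≤ 0 then χ (Ph m σ q).1 else 1 with hζ
  have l : ∀ u ∈ Om, Real.log ‖K u‖ = u 2 := fun u hu => by rw [h.atl.nrm u hu, Real.log_exp]
  have ne : ∀ u ∈ Om, K u ≠ 0 := fun u hu =>
    norm_pos_iff.1 (by rw [h.atl.nrm u hu]; exact Real.exp_pos _)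
  have e : ∀ u ∈ Om, zt (PK m σ K) χ u = ζ (K u) := fun u hu => by
    simp only [hζ, l u hu]
    rfl
  have o1 : ∀ u ∈ Om, |u 2| ≤ 1 → χ (PK m σ K u).1 = 1 := fun u hu k => one _ (by
    have := (rad h hp near (ne u hu)).1
    rw [l u hu] at this
    change ‖lg ((Ph m σ (K u)).1, o)‖ ≤ _
    linarith)
  obtain ⟨B, hB⟩ := cs.isCompact.exists_bound_of_continuousOn
    (h.had.c1.continuous.comp (continuous_id.prodMk (continuous_const (y := o)))).continuousOn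
  have c2 : Continuous fun u : V => u 2 := by fun_prop
  have lp : LocallyLipschitzOn Om fun u => χ (PK m σ K u).1 :=
    CZP.ll_c1 (g := fun z : V × V => χ z.1) (c1.comp contDiff_fst) h.geo.lip
  have lz : LocallyLipschitzOn Om fun u => ζ (K u) := by
    intro x hx
    by_cases k : x 2 < 1
    · obtain ⟨L, t, ht, hL⟩ := lp hx
      refine ⟨L, t ∩ (Om ∩ {u | u 2 < 1}), inter_mem ht (inter_mem self_mem_nhdsWithin
        (mem_nhdsWithin_of_mem_nhds ((isOpen_lt c2 continuous_const).mem_nhds k))), ?_⟩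
      have w : ∀ u ∈ Om ∩ {u | u 2 < 1}, ζ (K u) = χ (PK m σ K u).1 := fun u hu => by
        rw [← e u hu.1, zt]
        split_ifs with j
        · rfl
        · exact (o1 u hu.1 (abs_le.2 ⟨by linarith, hu.2.le⟩)).symm
      intro u hu v hv
      simp only [w u hu.2, w v hv.2]
      exact hL hu.1 hv.1
    · refine ⟨0, Om ∩ {u | 0 < u 2}, inter_mem self_mem_nhdsWithin (mem_nhdsWithin_of_mem_nhds
        ((isOpen_lt continuous_const c2).mem_nhds (by show 0 < x 2; linarith))), ?_⟩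
      have w : ∀ u ∈ Om ∩ {u | 0 < u 2}, ζ (K u) = 1 := fun u hu => by
        rw [← e u hu.1, zt, if_neg (not_le.2 hu.2)]
      intro u hu v hv
      simp only [w u hu, w v hv, edist_self, zero_le]
  have r := hg _ _ _ _ _ _ _ _ _ _ _ h ζ (|B| + |D| + 1) lz (fun q hq k => by
    have n : Real.log ‖q‖ ≤ 0 := by linarith [abs_nonneg B, abs_nonneg D]
    have t := (rad h hp near hq).2
    rw [abs_of_nonpos n] at t
    simp only [hζ, if_pos n]
    refine image_eq_zero_of_notMem_tsupport fun j => ?_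
    have : ‖lg ((Ph m σ q).1, o)‖ ≤ B := hB _ j
    linarith [le_abs_self B, le_abs_self D]) fun q hq k => by
    have n : ¬Real.log ‖q‖ ≤ 0 := by linarith [abs_nonneg B, abs_nonneg D]
    simp only [hζ, if_neg n]
  have ee : EqOn (eul m (PK m σ K) fun u => ζ (K u)) (eul m (PK m σ K) (zt (PK m σ K) χ)) Om0 :=
    fun u hu => by
      have : fderiv ℝ (zt (PK m σ K) χ) u = fderiv ℝ (fun u => ζ (K u)) u :=
        EventuallyEq.fderiv_eq (mem_of_superset (h.atl.op.mem_nhds (h.atl.sub hu)) e)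
      simp only [eul, this]
  exact ⟨r.1.congr_fun ee h.atl.ms, (setIntegral_congr_fun h.atl.ms ee).symm.le.trans r.2⟩

end Pool.Agent.MP_3ee8cb_gt.CZH
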