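import Pool.Agent.MP_3ee8cb_gt.CZH.Spec
import Pool.Agent.MP_3ee8cb_gt.D3NB.Sh

/-! The inequality on one ray. -/

namespace Pool.Agent.MP_3ee8cb_gt.CZH

open Set Filter Topology MeasureTheory D3GB D3GB.RP2 D3NB
open Pool.Agent.MP_3ee8cb_gt.D3 (MF)
open scoped RealInnerProductSpace

theorem oneD {F F' H h : ℝ → ℝ} {I : Set ℝ} {B : ℝ} (hF : ∀ t, HasDerivAt F (F' t) t)
    (cF : Continuous F') (su : ∀ t, B < |t| → F t = 0) (F0 : ∀ t, 0 ≤ F t) (hI : IsLowerSet I)
    (iH : Integrable H) (ih : Integrable h) (le : ∀ᵐ t, I.indicator F' t - h t ≤ H t) :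
    -∫ t, h t ≤ ∫ t, H t ∧ ∀ τ, (∀ᵐ t, t ∈ I ↔ t < τ) → F τ - ∫ t, h t ≤ ∫ t, H t := by
  have s' : ∀ t, B < |t| → F' t = 0 := fun t ht => (hF t).unique
    ((hasDerivAt_const t (0 : ℝ)).congr_of_eventuallyEq
      ((continuousAt_const.eventually_lt continuous_abs.continuousAt ht).mono su))
  have i' : Integrable F' := cF.integrable_of_hasCompactSupport
    (HasCompactSupport.intro (isCompact_Icc (a := -B) (b := B)) fun t ht =>
      s' t (not_le.1 fun h => ht (abs_le.1 h)))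
  have tb : Tendsto F atBot (𝓝 0) := tendsto_const_nhds.congr' <|
    (eventually_lt_atBot (-|B|)).mono fun t ht => (su t (by
      linarith [le_abs_self B, neg_le_abs t])).symm
  have tt : Tendsto F atTop (𝓝 0) := tendsto_const_nhds.congr' <|
    (eventually_gt_atTop B).mono fun t ht => (su t (ht.trans_le (le_abs_self t))).symm
  have key : ∀ J : Set ℝ, MeasurableSet J → (∀ᵐ t, t ∈ I ↔ t ∈ J) →
      (∫ t in J, F' t) - ∫ t, h t ≤ ∫ t, H t := fun J mJ e => by
    rw [← integral_indicator mJ, ← integral_sub (i'.indicator mJ) ih]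
    refine integral_mono_ae ((i'.indicator mJ).sub ih) iH ?_
    filter_upwards [le, e] with t h1 h2
    refine le_trans (le_of_eq ?_) h1
    by_cases h : t ∈ J
    · rw [indicator_of_mem h, indicator_of_mem (h2.2 h)]
    · rw [indicator_of_notMem h, indicator_of_notMem fun h' => h (h2.1 h')]
  have k2 : ∀ τ, (∀ᵐ t, t ∈ I ↔ t < τ) → F τ - ∫ t, h t ≤ ∫ t, H t := fun τ e => by
    have := key (Iio τ) measurableSet_Iio e
    rwa [← integral_Iic_eq_integral_Iio, integral_Iic_of_hasDerivAt_of_tendsto'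
      (fun t _ => hF t) i'.integrableOn tb, sub_zero] at this
  refine ⟨?_, k2⟩
  rcases I.eq_empty_or_nonempty with rfl | ne
  · simpa using key ∅ MeasurableSet.empty (Eventually.of_forall fun _ => Iff.rfl)
  by_cases bd : BddAbove I
  · refine le_trans (by linarith [F0 (sSup I)]) (k2 (sSup I) ?_)
    filter_upwards [compl_mem_ae_iff.2 (measure_singleton (sSup I))] with t ht
    refine ⟨fun h => (le_csSup bd h).lt_of_ne ht, fun h => ?_⟩
    obtain ⟨s, hs, l⟩ := exists_lt_of_lt_csSup ne h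
    exact hI l.le hs
  · have := key univ MeasurableSet.univ (Eventually.of_forall fun t => ⟨fun _ => trivial,
      fun _ => by
        obtain ⟨s, hs, l⟩ := not_bddAbove_iff.1 bd t
        exact hI l.le hs⟩)
    rwa [setIntegral_univ, integral_of_hasDerivAt_of_tendsto hF i' tb tt, sub_zero,
      zero_sub] at this

theorem cramer (l : V →L[ℝ] ℝ) (x p q r : V) : l p * trip x q r + l q * trip x r p +
    l r * trip x p q = l x * trip p q r := by
  have e : ∀ u : V, l u = u 0 * l (bv 0) + u 1 * l (bv 1) + u 2 * l (bv 2) := fun u => by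
    conv_lhs => rw [sum_bv u]
    simp only [map_add, map_smul, smul_eq_mul]
  rw [e p, e q, e r, e x]
  simp only [trip]
  ring

theorem gram {w x y x' y' : V} (hw : ⟪w, w⟫ = 1) (hx : ⟪w, x⟫ = 0) (hy : ⟪w, y⟫ = 0) :
    trip w x y * trip w x' y' = ⟪x, x'⟫ * ⟪y, y'⟫ - ⟪x, y'⟫ * ⟪y, x'⟫ := by
  simp only [inner3, trip] at *
  linear_combination ((x 0 * x' 0 + x 1 * x' 1 + x 2 * x' 2) * (y 0 * y' 0 + y 1 * y' 1 +
      y 2 * y' 2) - (x 0 * y' 0 + x 1 * y' 1 + x 2 * y' 2) * (y 0 * x' 0 + y 1 * x' 1 +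
      y 2 * x' 2)) * hw +
    ((y 0 * x' 0 + y 1 * x' 1 + y 2 * x' 2) * (w 0 * y' 0 + w 1 * y' 1 + w 2 * y' 2) -
      (y 0 * y' 0 + y 1 * y' 1 + y 2 * y' 2) * (w 0 * x' 0 + w 1 * x' 1 + w 2 * x' 2)) * hx +
    ((x 0 * y' 0 + x 1 * y' 1 + x 2 * y' 2) * (w 0 * x' 0 + w 1 * x' 1 + w 2 * x' 2) -
      (x 0 * x' 0 + x 1 * x' 1 + x 2 * x' 2) * (w 0 * y' 0 + w 1 * y' 1 + w 2 * y' 2)) * hy

variable {m : MF} {P : V → V × V} {D : V →L[ℝ] V × V} {z : V × V} {b : V} {s : ℝ} {χ : V → ℝ}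

theorem dw_pt (hm : m.OK) (h2 : ContDiff ℝ 2 m.om) (hχ : ContDiff ℝ 1 χ)
    (hP : HasFDerivAt P ((fderiv ℝ (m.Z s) z).comp D) b) (hb : P b = m.Z s z)
    (hD : D (bv 2) = m.vf z) : dw m P χ b =
      fderiv ℝ χ (m.Z s z).1 (m.R (m.Z s z).1 (m.Z s z).2) * yJ m z (D (bv 0)) (D (bv 1)) s +
        χ (m.Z s z).1 * kJ m z (D (bv 0)) (D (bv 1)) s - eu m χ z (D (bv 0)) (D (bv 1)) s := by
  have d := hP.differentiableAt
  have e := dv_smul (Ψ := fun x => (P x).1) (f := fun x => XX m (P x).1 (P x).2) (ζ := χ) d.fst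
    ((((XX_c1 hm h2).differentiable one_ne_zero _).comp b d.fst).clm_apply d.snd)
    (hχ.differentiable one_ne_zero _)
  rw [dw, e, dv_pt hm h2 hP hb hD, eu, ← jc_pt hm hP hD, hb,
    mul_div_cancel_left₀ _ (detS_ne hm _)]
  ring

theorem eul_neg (hm : m.OK) (hχ : ContDiff ℝ 1 χ)
    (hP : HasFDerivAt P ((fderiv ℝ (m.Z s) z).comp D) b) (hb : P b = m.Z s z)
    (hD : D (bv 2) = m.vf z) (h : b 2 < 0) :
    eul m P (zt P χ) b = eu m χ z (D (bv 0)) (D (bv 1)) s := by
  have c : Continuous fun x : V => x 2 := (EuclideanSpace.proj 2 : V →L[ℝ] ℝ).continuous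
  have e : zt P χ =ᶠ[𝓝 b] fun x => χ (P x).1 :=
    (c.continuousAt.eventually_lt continuousAt_const h).mono fun x hx => if_pos hx.le
  have d : fderiv ℝ (fun x => χ (P x).1) b = _ :=
    ((hχ.differentiable one_ne_zero (P b).1).hasFDerivAt.comp b hP.fst).fderiv
  have j := jc_pt hm hP hD
  rw [hP.fst.fderiv, rDET3 (ContinuousLinearMap.comp _ _)] at j
  rw [eul, e.fderiv_eq, d, eu, ← j, mul_div_cancel_left₀ _ (detS_ne hm _), ← cramer]
  simp only [ef, hP.fderiv, hb, ContinuousLinearMap.comp_apply, ContinuousLinearMap.coe_fst', hD,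
    dZ_vf hm, ver_vf, ← XX_trip hm]
  have t1 : ∀ x y : V, trip x y 0 = 0 := fun x y => by simp [trip]
  have t2 : ∀ x y : V, trip x 0 y = 0 := fun x y => by simp [trip]
  rw [t1, t2]
  simp only [yJ, MF.J', MF.vf]
  ring

theorem eul_pos (h : 0 < b 2) : eul m P (zt P χ) b = 0 := by
  have c : Continuous fun x : V => x 2 := (EuclideanSpace.proj 2 : V →L[ℝ] ℝ).continuous
  have e : zt P χ =ᶠ[𝓝 b] fun _ => 1 :=
    (continuousAt_const.eventually_lt c.continuousAt h).mono fun x hx => if_neg hx.not_ge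
  simp [eul, e.fderiv_eq]

theorem kJ_cont (hm : m.OK) (hj : m.Jac) (h2 : ContDiff ℝ 2 m.om) (z ξ η : V × V) :
    Continuous (kJ m z ξ η) := by
  have c0 : Continuous fun t => m.Z t z := continuous_iff_continuousAt.2 fun t =>
    (hm.ode z t).continuousAt
  have c1 : ∀ ξ, Continuous (m.J z ξ) := fun ξ => continuous_iff_continuousAt.2 fun t =>
    (hj.d1 z ξ t).continuousAt
  have c2 : ∀ ξ, Continuous (m.J' z ξ) := fun ξ => continuous_iff_continuousAt.2 fun t =>
    (hj.d2 z ξ t).continuousAt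
  have cX := (XX_c1 hm h2).continuous.comp c0.fst
  have cR := hm.cR.continuous.comp c0.fst
  have ct : ∀ {f g k : ℝ → V}, Continuous f → Continuous g → Continuous k →
      Continuous fun t => trip (f t) (g t) (k t) := fun hf hg hk => by
    simp only [← in_cr, ← crL_app]
    exact hf.inner ((crL.continuous.comp hg).clm_apply hk)
  have e : kJ m z ξ η = fun t => trip (XX m (m.Z t z).1 (m.J' z ξ t))
      (m.R (m.Z t z).1 (m.J z η t)) (m.R (m.Z t z).1 (m.Z t z).2) +
      trip (XX m (m.Z t z).1 (m.J' z η t)) (m.R (m.Z t z).1 (m.Z t z).2)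
        (m.R (m.Z t z).1 (m.J z ξ t)) := funext fun t => by rw [kJ, XX_trip hm, XX_trip hm]
  rw [e]
  exact (ct (cX.clm_apply (c2 ξ)) (cR.clm_apply (c1 η)) (cR.clm_apply c0.snd)).add
    (ct (cX.clm_apply (c2 η)) (cR.clm_apply c0.snd) (cR.clm_apply (c1 ξ)))

theorem ray {lg : V × V → V} {Om Om0 R : Set V} {o : V} {a E L c₀ c ρ : ℝ} (hm : m.OK)
    (hj' : m.Jac) (h2 : ContDiff ℝ 2 m.om) (hl : m.Had lg) (ha : 0 < a)
    (S : Sh m lg Om Om0 R P o E L c₀) (X : D3NB.Cut m lg o a E L c ρ χ) (hc : 0 ≤ c) {u : V}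
    (hu : u ∈ Om0) (g : Gp m P u)
    (ae : ∀ᵐ t : ℝ, Gp m P (u + t • bv 2) ∧ (0 < dl m P (u + t • bv 2) →
      (u + t • bv 2 ∈ R ↔ hj m P 0 0 (u + t • bv 2) < 0)))
    {I : Set ℝ} (hI : IsLowerSet I) (hR : ∀ᵐ t : ℝ, u + t • bv 2 ∈ R ↔ t ∈ I)
    (iH : Integrable fun t : ℝ => R.indicator (dw m P χ) (u + t • bv 2) +
      eul m P (zt P χ) (u + t • bv 2)) :
    -(2 * c * Real.exp (a * (E - ρ)) / a) ≤ ∫ t : ℝ, (R.indicator (dw m P χ) (u + t • bv 2) +
      eul m P (zt P χ) (u + t • bv 2)) ∧ ∀ τ : ℝ, (∀ᵐ t : ℝ, u + t • bv 2 ∈ R ↔ t < τ) →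
    χ (P (u + τ • bv 2)).1 * yv m P (u + τ • bv 2) - 2 * c * Real.exp (a * (E - ρ)) / a ≤
      ∫ t : ℝ, (R.indicator (dw m P χ) (u + t • bv 2) + eul m P (zt P χ) (u + t • bv 2)) := by
  have fl : ∀ v ∈ Om0, ∀ᶠ x in 𝓝 v, ‖(P x).2‖ = 1 ∧ ∀ s : ℝ, P (x + s • bv 2) = m.Z s (P x) :=
    fun v hv => eventually_of_mem (S.op.mem_nhds (S.sub hv)) S.flow
  obtain ⟨v, hv⟩ : ∃ v, v = u + (-u 2) • bv 2 := ⟨_, rfl⟩
  have v0 : v ∈ Om0 := hv ▸ S.inv0 u hu _
  have v2 : v 2 = 0 := by simp [hv, bv]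
  have uv : ∀ t : ℝ, u + t • bv 2 = v + (t + u 2) • bv 2 := fun t => by
    rw [hv, add_assoc, ← add_smul]
    congr 2
    ring
  have d0 := flow_fd hm g.dif.hasFDerivAt ((fl u hu).mono fun _ h => h.2 (-u 2))
  rw [← hv] at d0
  have pv : P v = m.Z (-u 2) (P u) := hv ▸ (S.flow u (S.sub hu)).2 _
  have dv0 := d0.differentiableAt.hasFDerivAt
  have f0 := S.flow v (S.sub v0)
  have dD := flow_vf hm dv0 f0.2
  have vp := ver_perp hm dv0 ((fl v v0).mono fun _ h => h.1)
  have vu := ver_perp hm g.dif.hasFDerivAt ((fl u hu).mono fun _ h => h.1)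
  have hp : ∀ e, ⟪(P u).2, m.hor (P u) (fderiv ℝ P u e)⟫ = 0 →
      ⟪m.hor (P v) (fderiv ℝ P v e), (P v).2⟫ = 0 := fun e he => by
    have := D3WI.J_vel hm hj' (P u) (fderiv ℝ P u e) (-u 2)
    rw [vu, real_inner_comm (P u).2, he] at this
    rw [d0.fderiv, pv]
    exact this.trans (by simp)
  have T0 : Tg m L (P v) (fderiv ℝ P v (bv 0)) := ⟨hp _ g.l0, vp _, S.bd v v0 v2 0⟩
  have T1 : Tg m L (P v) (fderiv ℝ P v (bv 1)) := ⟨hp _ g.l1, vp _, S.bd v v0 v2 1⟩
  have nr : ‖lg (o, (P v).1)‖ ≤ E := (D3WI.lg_symm hj' hl _ _).trans_le (S.near v v0 v2)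
  have ds : ∀ t : ℝ, HasFDerivAt P ((fderiv ℝ (m.Z (t + u 2)) (P v)).comp (fderiv ℝ P v))
      (u + t • bv 2) := fun t => uv t ▸ flow_fd hm dv0 ((fl v v0).mono fun _ h => h.2 _)
  have ps : ∀ t : ℝ, P (u + t • bv 2) = m.Z (t + u 2) (P v) := fun t => uv t ▸ f0.2 _
  have b2 : ∀ t : ℝ, (u + t • bv 2) 2 = t + u 2 := fun t => by simp [bv, add_comm]
  generalize fderiv ℝ P v = D at *
  generalize P v = z at *
  have ey : ∀ t : ℝ, yv m P (u + t • bv 2) = yJ m z (D (bv 0)) (D (bv 1)) (t + u 2) := fun t => by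
    rw [yv, (ds t).fderiv, ps]
    rfl
  have ed : ∀ t : ℝ, dl m P (u + t • bv 2) = dJ m z (D (bv 0)) (D (bv 1)) (t + u 2) := fun t => by
    rw [dl, (ds t).fderiv, ps]
    rfl
  have eh : ∀ (t : ℝ) i j, hj m P i j (u + t • bv 2) =
      ⟪m.J z (D (bv i)) (t + u 2), m.J' z (D (bv j)) (t + u 2)⟫ := fun t i j => by
    rw [hj, (ds t).fderiv, ps]
    rfl
  have dy := yJ_der hm hj' f0.1 (vp (bv 0)) (vp (bv 1))
  have cy : Continuous (yJ m z (D (bv 0)) (D (bv 1))) :=
    continuous_iff_continuousAt.2 fun t => (dy t).continuousAt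
  have c0 : Continuous fun t => m.Z t z := continuous_iff_continuousAt.2 fun t =>
    (hm.ode z t).continuousAt
  have y0 : ∀ t : ℝ, 0 ≤ yJ m z (D (bv 0)) (D (bv 1)) (t + u 2) := fun t =>
    (isClosed_le continuous_const (cy.comp (continuous_add_const (u 2)))).closure_subset
      (Measure.dense_of_ae (ae.mono fun t h => (h.1.pos.trans_eq (ey t)).le) t)
  have dχ : ∀ s, HasDerivAt (fun s => χ (m.Z s z).1)
      (fderiv ℝ χ (m.Z s z).1 (m.R (m.Z s z).1 (m.Z s z).2)) s := fun s =>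
    (X.c1.differentiable one_ne_zero _).hasFDerivAt.comp_hasDerivAt s (hm.ode z s).fst
  have i1 : Integrable ((Iic (E - ρ)).indicator fun t => c * Real.exp (a * t)) :=
    IntegrableOn.integrable_indicator ((integrableOn_exp_mul_Iic ha _).const_mul c)
      measurableSet_Iic
  have i2' : IntegrableOn (fun t => Real.exp (-a * t)) (Ici (ρ - E)) :=
    (integrableOn_Ici_iff_integrableOn_Ioi).2 (integrableOn_exp_mul_Ioi (neg_lt_zero.2 ha) _)
  simp only [neg_mul] at i2'
  have i2 : Integrable ((Ici (ρ - E)).indicator fun t => c * Real.exp (-(a * t))) :=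
    IntegrableOn.integrable_indicator (i2'.const_mul c) measurableSet_Ici
  have ei : ∫ t, ((Iic (E - ρ)).indicator (fun t => c * Real.exp (a * t)) (t + u 2) +
      (Ici (ρ - E)).indicator (fun t => c * Real.exp (-(a * t))) (t + u 2)) =
      2 * c * Real.exp (a * (E - ρ)) / a := by
    have k := integral_exp_mul_Ioi (neg_lt_zero.2 ha) (ρ - E)
    simp only [neg_mul] at k
    rw [integral_add (i1.comp_add_right _) (i2.comp_add_right _), integral_add_right_eq_self,
      integral_add_right_eq_self (fun t => (Ici (ρ - E)).indicator _ t),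
      integral_indicator measurableSet_Iic, integral_indicator measurableSet_Ici,
      integral_Ici_eq_integral_Ioi, integral_const_mul, integral_const_mul,
      integral_exp_mul_Iic ha, k, show -(a * (ρ - E)) = a * (E - ρ) by ring]
    field_simp
    ring
  have main := oneD (I := I) (B := 2 * ρ + E + |u 2|)
    (fun t => ((dχ (t + u 2)).mul (dy (t + u 2))).comp_add_const t (u 2))
    ((((((X.c1.continuous_fderiv one_ne_zero).comp c0.fst).clm_apply
      ((hm.cR.continuous.comp c0.fst).clm_apply c0.snd)).mul cy).add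
        ((X.c1.continuous.comp c0.fst).mul (kJ_cont hm hj' h2 _ _ _))).comp
          (continuous_add_const (u 2)))
    (fun t ht => by
      have := (X.far z f0.1 nr (t + u 2) (by
        linarith [abs_add_le (t + u 2) (-u 2), abs_neg (u 2),
          show |t + u 2 + -u 2| = |t| by simp])).self_of_nhds
      simp [this])
    (fun t => mul_nonneg (X.nn _) (y0 t)) hI iH ((i1.comp_add_right _).add (i2.comp_add_right _))
    (by
      filter_upwards [ae, hR, compl_mem_ae_iff.2 (measure_singleton (-u 2))] with t h1 h3 h4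
      have n1 : 0 ≤ (Iic (E - ρ)).indicator (fun t => c * Real.exp (a * t)) (t + u 2) :=
        indicator_nonneg (fun _ _ => by positivity) _
      have n2 : 0 ≤ (Ici (ρ - E)).indicator (fun t => c * Real.exp (-(a * t))) (t + u 2) :=
        indicator_nonneg (fun _ _ => by positivity) _
      have w := dw_pt hm h2 X.c1 (ds t) (ps t) dD
      have gr := gram (w := (m.Z (t + u 2) z).2) (x := m.J z (D (bv 0)) (t + u 2))
        (y := m.J z (D (bv 1)) (t + u 2)) (x' := m.J' z (D (bv 0)) (t + u 2))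
        (y' := m.J' z (D (bv 1)) (t + u 2))
        (by rw [real_inner_self_eq_norm_sq, hj'.norm, f0.1, one_pow])
        (by rw [real_inner_comm, D3WI.J_vel hm hj', T0.hor, T0.ver]; simp)
        (by rw [real_inner_comm, D3WI.J_vel hm hj', T1.hor, T1.ver]; simp)
      have sy := h1.1.sym
      have yp := h1.1.pos
      have ty := h1.2
      rw [eh, eh] at sy
      rw [ey] at yp
      rw [ed, eh] at ty
      have pd : 0 < dJ m z (D (bv 0)) (D (bv 1)) (t + u 2) →
          0 < ⟪m.J z (D (bv 0)) (t + u 2), m.J' z (D (bv 0)) (t + u 2)⟫ *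
            ⟪m.J z (D (bv 1)) (t + u 2), m.J' z (D (bv 1)) (t + u 2)⟫ := fun h => by
        have := mul_pos h yp
        rw [dJ, yJ, gr, sy] at this
        nlinarith [mul_self_nonneg ⟪m.J z (D (bv 1)) (t + u 2), m.J' z (D (bv 0)) (t + u 2)⟫]
      simp only [Pi.add_apply]
      rcases lt_or_gt_of_ne (show t + u 2 ≠ 0 from fun h => h4 (eq_neg_of_add_eq_zero_left h))
        with l | l
      · rw [eul_neg hm X.c1 (ds t) (ps t) dD ((b2 t).trans_lt l)]
        by_cases r : u + t • bv 2 ∈ R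
        · rw [indicator_of_mem r, indicator_of_mem (h3.1 r), w]
          linarith
        · rw [indicator_of_notMem r, indicator_of_notMem fun h => r (h3.2 h)]
          have := X.ent z _ _ 1 (t + u 2) f0.1 nr T0 T1 abs_one (by linarith) l.le (by
            rw [one_mul]
            refine (le_or_gt _ _).imp id fun h => ?_
            have q := not_lt.1 fun h' => r ((ty h).2 h')
            exact ⟨q, (pos_of_mul_pos_right (pd h) q).le⟩)
          linarith
      · rw [eul_pos (l.trans_eq (b2 t).symm)]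
        by_cases r : u + t • bv 2 ∈ R
        · rw [indicator_of_mem r, indicator_of_mem (h3.1 r), w]
          have := X.exi z _ _ 1 (t + u 2) f0.1 nr T0 T1 abs_one (by linarith) l.le (by
            rw [one_mul]
            refine (le_or_gt _ _).imp id fun h => ?_
            have q := (ty h).1 r
            exact ⟨q.le, (neg_of_mul_pos_right (pd h) q.le).le⟩)
          linarith
        · rw [indicator_of_notMem r, indicator_of_notMem fun h => r (h3.2 h)]
          linarith)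
  simp only [Pi.add_apply, ei] at main
  refine ⟨main.1, fun τ hτ => ?_⟩
  rw [ey, ps]
  refine main.2 τ ?_
  filter_upwards [hR, hτ] with t h1 h3 using h1.symm.trans h3

end Pool.Agent.MP_3ee8cb_gt.CZH
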